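import Pool.Agent.Helper96.GB.Frames

/-!
# Three disjoint open sets with the same frontier
-/

set_option autoImplicit false

open Set Filter Metric Topology

namespace Pool.Agent.Helper96.GB

theorem s_Wada : S_Wada := by
  intro B₁ B₂ B₃ h1 h2 h3 h12 h13 h23 hf2 hf3 x hx hC
  obtain ⟨U, hU, hxU, ρ, hρ, hd, hB⟩ := hC
  obtain ⟨w, hw⟩ : ∃ w, fderiv ℝ ρ x w ≠ 0 := by
    by_contra h
    push Not at h
    exact hd (ContinuousLinearMap.ext h)
  set v : E := (fderiv ℝ ρ x w)⁻¹ • w with hvdef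
  have hv : fderiv ℝ ρ x v = 1 := by
    rw [hvdef, map_smul, smul_eq_mul, inv_mul_cancel₀ hw]
  have hcont : ContinuousOn (fun y => fderiv ℝ ρ y v) U :=
    (hρ.continuousOn_fderiv_of_isOpen hU le_rfl).clm_apply continuousOn_const
  have hnear : U ∩ {y | 1 / 2 < fderiv ℝ ρ y v} ∈ 𝓝 x := by
    refine inter_mem (hU.mem_nhds hxU) ?_
    have h := (hcont.continuousAt (hU.mem_nhds hxU)).eventually
      (lt_mem_nhds (by rw [hv]; norm_num : (1 / 2 : ℝ) < fderiv ℝ ρ x v))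
    exact h
  obtain ⟨R, hR, hRU⟩ := Metric.mem_nhds_iff.1 hnear
  -- monotone in the direction `v`
  have hmono : ∀ y : E, ∀ t : ℝ, 0 ≤ t → (∀ u ∈ Icc (0 : ℝ) t, y + u • v ∈ ball x R) →
      ρ y + t / 2 ≤ ρ (y + t • v) := by
    intro y t ht hin
    have hder : ∀ u ∈ Icc (0 : ℝ) t,
        HasDerivAt (fun u : ℝ => ρ (y + u • v)) (fderiv ℝ ρ (y + u • v) v) u := by
      intro u hu
      have hyU := (hRU (hin u hu)).1
      have hdiff : DifferentiableAt ℝ ρ (y + u • v) :=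
        (hρ.differentiableOn one_ne_zero).differentiableAt (hU.mem_nhds hyU)
      have hline : HasDerivAt (fun u : ℝ => y + u • v) v u := by
        have h := ((hasDerivAt_id u).smul_const v).const_add y
        simpa using h
      exact hdiff.hasFDerivAt.comp_hasDerivAt u hline
    have hmv := (convex_Icc (0 : ℝ) t).mul_sub_le_image_sub_of_le_deriv
      (f := fun u : ℝ => ρ (y + u • v)) (C := 1 / 2)
      (fun u hu => (hder u hu).continuousAt.continuousWithinAt)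
      (fun u hu => (hder u (interior_subset hu)).differentiableAt.differentiableWithinAt)
      (fun u hu => by
        rw [(hder u (interior_subset hu)).deriv]
        exact (hRU (hin u (interior_subset hu))).2.le)
      0 ⟨le_rfl, ht⟩ t ⟨ht, le_rfl⟩ ht
    simp only [zero_smul, add_zero, sub_zero] at hmv
    linarith
  -- points of the frontier of `B₁` satisfy `ρ ≤ 0`
  have hfront : ∀ z ∈ U, z ∈ frontier B₁ → ρ z ≤ 0 := by
    intro z hzU hz
    by_contra hpos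
    push Not at hpos
    have hnb : U ∩ {y | 0 < ρ y} ∈ 𝓝 z := by
      refine inter_mem (hU.mem_nhds hzU) ?_
      exact (hρ.continuousOn.continuousAt (hU.mem_nhds hzU)).eventually (lt_mem_nhds hpos)
    obtain ⟨y, hy, hyB⟩ := mem_closure_iff_nhds.1 hz.1 _ hnb
    have hy' : y ∈ B₁ ∩ U := ⟨hyB, hy.1⟩
    rw [hB] at hy'
    exact absurd hy'.2 (not_lt.2 (le_of_lt hy.2))
  have hneg : ∀ z ∈ U, ρ z < 0 → z ∈ B₁ := by
    intro z hzU hz
    have : z ∈ B₁ ∩ U := by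
      rw [hB]; exact ⟨hzU, hz⟩
    exact this.1
  have hx0 : 0 ≤ ρ x := by
    by_contra h
    push Not at h
    have := hneg x hxU h
    rw [h1.frontier_eq] at hx
    exact hx.2 this
  -- the size of the three segments
  obtain ⟨τ, hτ, hτR⟩ : ∃ τ : ℝ, 0 < τ ∧ τ * ‖v‖ < R / 2 := by
    refine ⟨R / (2 * (‖v‖ + 1)), by positivity, ?_⟩
    have hvn := norm_nonneg v
    rw [div_mul_eq_mul_div, div_lt_div_iff₀ (by positivity) (by norm_num)]
    nlinarith
  have hnb2 : ball x (R / 2) ∩ {y | -(τ / 4) < ρ y} ∈ 𝓝 x := by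
    refine inter_mem (ball_mem_nhds x (by positivity)) ?_
    exact (hρ.continuousOn.continuousAt (hU.mem_nhds hxU)).eventually
      (lt_mem_nhds (by linarith))
  obtain ⟨ε, hε, hεs⟩ := Metric.mem_nhds_iff.1 hnb2
  have hin : ∀ y ∈ ball x ε, ∀ u ∈ Icc (0 : ℝ) τ, y + u • v ∈ ball x R := by
    intro y hy u hu
    have hy1 := (hεs hy).1
    rw [mem_ball, dist_eq_norm] at hy1 ⊢
    calc ‖y + u • v - x‖ = ‖(y - x) + u • v‖ := by congr 1; abel
      _ ≤ ‖y - x‖ + ‖u • v‖ := norm_add_le _ _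
      _ = ‖y - x‖ + u * ‖v‖ := by rw [norm_smul, Real.norm_of_nonneg hu.1]
      _ ≤ ‖y - x‖ + τ * ‖v‖ := by
          have := mul_le_mul_of_nonneg_right hu.2 (norm_nonneg v)
          linarith
      _ < R := by linarith
  have hx2 : x ∈ closure B₂ := by
    rw [hf2] at hx; exact hx.1
  have hx3 : x ∈ closure B₃ := by
    rw [hf3] at hx; exact hx.1
  obtain ⟨y₂, hy₂, hy₂B⟩ := mem_closure_iff_nhds.1 hx2 _ (ball_mem_nhds x hε)
  obtain ⟨y₃, hy₃, hy₃B⟩ := mem_closure_iff_nhds.1 hx3 _ (ball_mem_nhds x hε)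
  have hbU : ∀ y ∈ ball x ε, y ∈ U := by
    intro y hy
    have := hin y hy 0 ⟨le_rfl, hτ.le⟩
    rw [zero_smul, add_zero] at this
    exact (hRU this).1
  have hρ2 : 0 ≤ ρ y₂ := by
    by_contra h
    push Not at h
    exact Set.disjoint_left.1 h12 (hneg _ (hbU _ hy₂) h) hy₂B
  have hρ3 : 0 ≤ ρ y₃ := by
    by_contra h
    push Not at h
    exact Set.disjoint_left.1 h13 (hneg _ (hbU _ hy₃) h) hy₃B
  -- the connected set
  set S₂ : Set E := (fun u : ℝ => y₂ + u • v) '' Icc 0 τ with hS₂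
  set S₃ : Set E := (fun u : ℝ => y₃ + u • v) '' Icc 0 τ with hS₃
  set T : Set E := (fun y : E => y + τ • v) '' ball x ε with hT
  have hcS : ∀ y : E, IsPreconnected ((fun u : ℝ => y + u • v) '' Icc 0 τ) := by
    intro y
    refine isPreconnected_Icc.image _ ?_
    exact (continuous_const.add (continuous_id.smul continuous_const)).continuousOn
  have hcT : IsPreconnected T :=
    ((convex_ball x ε).isPreconnected).image _ (continuous_id.add continuous_const).continuousOn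
  have hc : IsPreconnected (S₂ ∪ T ∪ S₃) := by
    refine IsPreconnected.union (y₃ + τ • v) ?_ ?_ ?_ (hcS y₃)
    · exact Or.inr ⟨y₃, hy₃, rfl⟩
    · exact ⟨τ, ⟨hτ.le, le_rfl⟩, rfl⟩
    · refine IsPreconnected.union (y₂ + τ • v) ?_ ?_ (hcS y₂) hcT
      · exact ⟨τ, ⟨hτ.le, le_rfl⟩, rfl⟩
      · exact ⟨y₂, hy₂, rfl⟩
  have hm2 : y₂ ∈ S₂ ∪ T ∪ S₃ :=
    Or.inl (Or.inl ⟨0, ⟨le_rfl, hτ.le⟩, by simp⟩)
  have hm3 : y₃ ∈ S₂ ∪ T ∪ S₃ :=
    Or.inr ⟨0, ⟨le_rfl, hτ.le⟩, by simp⟩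
  have hy₃n : y₃ ∉ B₂ := fun h => Set.disjoint_left.1 h23 h hy₃B
  obtain ⟨z, hz, hzf⟩ : ∃ z ∈ S₂ ∪ T ∪ S₃, z ∈ frontier B₂ := by
    by_contra hno
    push Not at hno
    refine hy₃n (hc.subset_of_closure_inter_subset h2 ⟨y₂, hm2, hy₂B⟩ ?_ hm3)
    rintro z ⟨hz1, hz2⟩
    by_contra hz3
    refine hno z hz2 ?_
    rw [h2.frontier_eq]
    exact ⟨hz1, hz3⟩
  have hzf1 : z ∈ frontier B₁ := by rw [hf2]; exact hzf
  have hz2 : z ≠ y₂ := by
    rintro rfl
    rw [h2.frontier_eq] at hzf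
    exact hzf.2 hy₂B
  have hz3 : z ≠ y₃ := by
    rintro rfl
    obtain ⟨a, ha, ha'⟩ := mem_closure_iff_nhds.1 hzf.1 _ (h3.mem_nhds hy₃B)
    exact Set.disjoint_left.1 h23 ha' ha
  have hseg : ∀ y ∈ ball x ε, 0 ≤ ρ y → z ∈ (fun u : ℝ => y + u • v) '' Icc 0 τ → z ≠ y →
      False := by
    rintro y hy hy0 ⟨u, hu, rfl⟩ hne
    simp only at hne hzf1
    have hzR := hin y hy u hu
    have h4 := hfront _ (hRU hzR).1 hzf1
    have h5 := hmono y u hu.1 (fun u' hu' => hin y hy u' ⟨hu'.1, hu'.2.trans hu.2⟩)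
    have h6 : u = 0 := by
      have := hu.1
      linarith
    rw [h6, zero_smul, add_zero] at hne
    exact hne rfl
  rcases hz with (hz | hz) | hz
  · exact hseg y₂ hy₂ hρ2 hz hz2
  · obtain ⟨y, hy, rfl⟩ := hz
    have hzR := hin y hy τ ⟨hτ.le, le_rfl⟩
    have h4 := hfront _ (hRU hzR).1 hzf1
    have h5 := hmono y τ hτ.le (hin y hy)
    have h6 : -(τ / 4) < ρ y := (hεs hy).2
    linarith
  · exact hseg y₃ hy₃ hρ3 hz hz3

end Pool.Agent.Helper96.GB
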